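import Pool.Agent.W662.SK.StmtsB

set_option autoImplicit false

open scoped InnerProductSpace ENNReal

namespace Pool.Agent.W428.SK

open Pool.Agent.W662.SK

theorem fell : S_FELL := by
  intro Γ E _ _ _ ω n Y
  let V : L2 Γ E ≃ₗᵢ[ℂ] L2 Γ E := isoL (Equiv.inv Γ) (fun _ => LinearIsometryEquiv.refl ℂ E)
  refine ⟨fun i => V (Wop ω (Y i)), fun g i j => ?_⟩
  have h1 : Lam E g (V (Wop ω (Y i))) = V (Wop ω (lft Γ (cl (ω g)) (Rho E g (Y i)))) := by
    refine l2_ext fun k => ?_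
    rw [Lam_apply]
    have e1 : ∀ (f : L2 Γ E) (k : Γ), V f k = f k⁻¹ := fun f k => rfl
    rw [e1, e1, Wop_apply, Wop_apply, lft_apply, cl_apply, Rho_apply, mul_inv_rev, inv_inv,
      map_mul]
    rfl
  rw [h1, V.inner_map_map, (Wop ω).inner_map_map]

end Pool.Agent.W428.SK
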